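import Pool.Agent.Results.MP_542436_nt.ConductorWindows
import Pool.Agent.V11326.WPD

/-!
# The truncated inequality of Vojta for ALL points, of whatever height, with truncated counting functions close to powers of a
# typical base, on all rational curves of `ℙ¹ × ℙ¹` and for all divisors at once

Let `K` be a number field, `a + b ≥ 1`, `p ≥ 3` and `κ₁ a + κ₂ b < p`. Let `lam n / log n → ∞` (for example `lam n = n`), `U` a
countable set and `θ < 1`. For all real `z > 1` outside a set of Hausdorff dimension at most `(1 - ν) / (1 - θ)`, of measure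
zero if `θ < ν`, and all `β > 0` in `U` the following holds for ALL finite sets `S` of primes of `K`, ALL curves
`C : x ↦ (A (x), B (x))` over `K` with components of degrees `a` and `b`, ALL divisors `D : F = 0` of bidegree `(q, r)` which
do not contain `C` and meet it in `p` points, all of them `K`-rational, and all real `C₀`: if `n` is large, ALL points
`P = (α, β')` of `C` with a parameter in the projective line over `K`, off `D`, of whatever height, with
`|exp (2 N(P) / p) - β z ^ lam n| ≤ z ^ (θ lam n)`, where `N(P) = N^(1)_S(D, P)`, satisfy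
`N^(1)_S(D, P) ≥ κ₁ h_K(α) + κ₂ h_K(β') - C₀`.

The proof combines the starting result `AllRationalCurvesAtOnce` with the theorem of helper1 that the powers of almost every
base avoid thin sets. The definitions are those of that file.
-/

set_option autoImplicit false

namespace Pool.Agent.Results.MP_542436_nt.ConductorsNearPowers

open NumberField IsDedekindDomain Polynomial MeasureTheory
open Pool.Agent.Results.MP_542436_nt.AllRationalCurvesAtOnce
open Pool.Agent.Results.MP_542436_nt.ConductorWindows (counting_smul)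

/-- `lam n / log n` tends to infinity (for example `lam n = n`, `n!`). -/
def Fast (lam : ℕ → ℝ) : Prop := Filter.Tendsto (fun n : ℕ => lam n / Real.log n) Filter.atTop Filter.atTop

theorem result (K : Type) [Field K] [NumberField K] (a b q r p : ℕ) (hab : 1 ≤ a + b) (hp : 3 ≤ p) (κ₁ κ₂ : ℝ)
    (hκ : κ₁ * a + κ₂ * b < p) :
    ∃ ν : ℝ, 0 < ν ∧ ν ≤ 1 ∧ ∀ (lam : ℕ → ℝ) (θ : ℝ), Fast lam → θ < 1 → ∀ U : Set ℝ, U.Countable →
      ∃ E : Set ℝ, dimH E ≤ ENNReal.ofReal ((1 - ν) / (1 - θ)) ∧ (θ < ν → volume E = 0) ∧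
        ∀ z : ℝ, 1 < z → z ∉ E → ∀ β ∈ U, 0 < β → ∀ (S : Finset (HeightOneSpectrum (𝓞 K))) (A B : Fin 2 → K[X])
          (F : MvPolynomial (Fin 2 ⊕ Fin 2) K) (H : ℝ), Admissible a b q r p H S A B F → ∀ C₀ : ℝ,
          ∃ n₀ : ℕ, ∀ n : ℕ, n₀ ≤ n → ∀ x : Option K, coordinates a A x ≠ 0 → coordinates b B x ≠ 0 →
            MvPolynomial.eval (Sum.elim (coordinates a A x) (coordinates b B x)) F ≠ 0 →
            |Real.exp (2 / (p : ℝ) * counting (S : Set _) F q r (coordinates a A x) (coordinates b B x)) - β * z ^ lam n| ≤ z ^ (θ * lam n) →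
            κ₁ * Height.logHeight (coordinates a A x) + κ₂ * Height.logHeight (coordinates b B x) - C₀ ≤
              counting (S : Set _) F q r (coordinates a A x) (coordinates b B x) := by
  obtain ⟨-, h2, -⟩ := AllRationalCurvesAtOnce.result K a b q r p hab hp
  obtain ⟨η, ν, hη, hν, hE⟩ := h2 κ₁ κ₂ hκ
  have hp0 : (0 : ℝ) < p := by exact_mod_cast (by omega : 0 < p)
  have hC : ∀ c : ℝ, ∃ C : ℝ, ∀ X : ℝ, 1 ≤ X → (Exceptions K a b q r p η κ₁ κ₂ c X).Finite ∧
        ((Exceptions K a b q r p η κ₁ κ₂ c X).ncard : ℝ) ≤ C * X ^ (2 / (p : ℝ) - ν) := fun c => (hE c).1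
  choose C hC using hC
  have h1 := Pool.Agent.V11326.WCt.countable_primes K
  have h3 := Pool.Agent.V11326.WCt.countable_field K
  have h4 := Pool.Agent.V11326.WCp.poly_countable K
  have h5 := Pool.Agent.V11326.WCp.mvpoly_countable (Fin 2 ⊕ Fin 2) K
  let ι : Type := {z : Finset (HeightOneSpectrum (𝓞 K)) × (Fin 2 → K[X]) × (Fin 2 → K[X]) ×
    MvPolynomial (Fin 2 ⊕ Fin 2) K // ∃ H, Admissible a b q r p H z.1 z.2.1 z.2.2.1 z.2.2.2} × ℤ
  have hι : Countable ι := inferInstance
  let Tp : Type := Projectivization K (Fin 2 → K) × Projectivization K (Fin 2 → K)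
  let cnt : ι → (Fin 2 → K) → (Fin 2 → K) → ℝ := fun i s t =>
    counting (i.1.1.1 : Set (HeightOneSpectrum (𝓞 K))) i.1.1.2.2.2 q r s t
  let S : ι → Set Tp := fun i =>
    {P | ∃ (x : Option K) (hs : coordinates a i.1.1.2.1 x ≠ 0) (ht : coordinates b i.1.1.2.2.1 x ≠ 0),
      P = (Projectivization.mk K (coordinates a i.1.1.2.1 x) hs,
        Projectivization.mk K (coordinates b i.1.1.2.2.1 x) ht) ∧
      MvPolynomial.eval (Sum.elim (coordinates a i.1.1.2.1 x) (coordinates b i.1.1.2.2.1 x)) i.1.1.2.2.2 ≠ 0 ∧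
      cnt i (coordinates a i.1.1.2.1 x) (coordinates b i.1.1.2.2.1 x) <
        κ₁ * Height.logHeight (coordinates a i.1.1.2.1 x) +
          κ₂ * Height.logHeight (coordinates b i.1.1.2.2.1 x) - i.2}
  let N : ι → Tp → ℝ := fun i P => cnt i P.1.rep P.2.rep
  have hrep : ∀ (i : ι) (s t : Fin 2 → K) (hs : s ≠ 0) (ht : t ≠ 0),
      cnt i (Projectivization.mk K s hs).rep (Projectivization.mk K t ht).rep = cnt i s t := by
    intro i s t hs ht
    obtain ⟨H, hH⟩ := i.1.2
    obtain ⟨c, hc⟩ := Projectivization.exists_smul_eq_mk_rep K s hs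
    obtain ⟨d, hd⟩ := Projectivization.exists_smul_eq_mk_rep K t ht
    rw [← hc, ← hd]
    exact counting_smul _ hH.bihomogeneous c.ne_zero d.ne_zero s t
  refine ⟨min (ν / (2 / (p : ℝ))) 1, lt_min (by positivity) one_pos, min_le_right _ _, fun lam θ hlam hθ U hU => ?_⟩
  obtain ⟨E, hE1, hE0, h⟩ := Pool.Agent.V11326.WPD.family (ι := ι) (T := Tp) (e := 2 / (p : ℝ)) (ν := ν)
    (by positivity) hν (fun i => C i.2) (fun i X => Exceptions K a b q r p η κ₁ κ₂ i.2 X)
    (fun i X hX => hC i.2 X hX) S N (by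
      intro i
      obtain ⟨H, hH⟩ := i.1.2
      refine ⟨Real.exp (H / η), fun X hX P hP hN => ?_⟩
      have hX0 : 0 < X := lt_of_lt_of_le (Real.exp_pos _) hX
      have h6 := (Real.le_log_iff_exp_le hX0).2 hX
      rw [div_le_iff₀ hη, mul_comm] at h6
      obtain ⟨x, hs, ht, rfl, h7, h8⟩ := hP
      have h9 : cnt i (Projectivization.mk K (coordinates a i.1.1.2.1 x) hs).rep
        (Projectivization.mk K (coordinates b i.1.1.2.2.1 x) ht).rep ≤ Real.log X := hN
      rw [hrep] at h9
      exact ⟨i.1.1.1, i.1.1.2.1, i.1.1.2.2.1, i.1.1.2.2.2, ⟨hH.first, hH.second, hH.bihomogeneous, hH.ne_zero, hH.splits,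
        hH.points, hH.primes.trans h6, hH.height_first.trans h6, hH.height_second.trans h6, hH.height_form.trans h6⟩,
        x, hs, ht, rfl, h7, h9, h8⟩)
    lam θ hlam hθ U hU
  refine ⟨E, hE1, hE0, fun z hz hzE β hβ hβ0 S' A B F H hA C₀ => ?_⟩
  let i : ι := (⟨(S', A, B, F), ⟨H, hA⟩⟩, ⌊C₀⌋)
  obtain ⟨n₀, hn⟩ := h z hz hzE β hβ hβ0 i
  refine ⟨n₀, fun n hnn x hs ht hF hw => ?_⟩
  by_contra hcon
  push Not at hcon
  have hfl : (⌊C₀⌋ : ℝ) ≤ C₀ := Int.floor_le C₀
  refine hn n hnn (Projectivization.mk K (coordinates a A x) hs, Projectivization.mk K (coordinates b B x) ht) ?_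
    ⟨x, hs, ht, rfl, hF, by
      show counting (S' : Set _) F q r (coordinates a A x) (coordinates b B x) <
        κ₁ * Height.logHeight (coordinates a A x) + κ₂ * Height.logHeight (coordinates b B x) - ((⌊C₀⌋ : ℤ) : ℝ)
      linarith⟩
  have e1 := hrep i (coordinates a A x) (coordinates b B x) hs ht
  show |Real.exp (2 / (p : ℝ) * cnt i (Projectivization.mk K (coordinates a A x) hs).rep
    (Projectivization.mk K (coordinates b B x) ht).rep) - β * z ^ lam n| ≤ z ^ (θ * lam n)
  rw [e1]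
  exact hw


end Pool.Agent.Results.MP_542436_nt.ConductorsNearPowers
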