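import Pool.Agent.Results.MP_542436_nt.SplitCurves
import Pool.Agent.H2N.NearSpace

/-!
# Truncated Vojta inequality on `P¹ × P¹` at all points near almost every point

Let `D` be a divisor on `P¹ × P¹` over a number field `K` which is the union of fibres of the first projection, of fibres
of the second projection and of smooth curves of bidegree `(1, 1)`, with normal crossings and rational crossing points, of
bidegree `(a, b)`, `b ≥ 1`. Let `h` be the height relative to `K` and `H(x, y) = exp (max (h(x), h(y)))`. For `0 ≤ κ ≤ 2`,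
`σ > 0`, each map `φ` of `K²` to a metric space and all points `z` outside a set of Hausdorff dimension at most
`max(2 (2 - κ), 10 / 3) / σ` the inequality `N^(1)(D, (x, y)) ≥ (a - κ) h(x) + (b - κ) h(y) + c` holds for all but finitely
many `(x, y) ∈ K²` off `D` with `dist (φ (x, y)) z ≤ H(x, y) ^ (-σ)`, for every `c`. There is no exceptional curve, and no
`ε` (the inequality of the problem has `κ = 2 + ε`).

For almost every `z ∈ ℝ²` this holds for the pairs `(x, y)` near `z` with coordinates in `K`, simultaneously for all number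
fields `K ⊂ ℝ`, all such divisors over `K` and all `σ > max(2 - κ, 5 / 3)`. By Dirichlet's theorem each `z ∈ ℝ²` is
approximated to the precision `H ^ (-σ)`, `σ < 2`, by infinitely many pairs. The inequality holds in particular for
`κ = 1 / 3`.
-/

set_option autoImplicit false

open NumberField IsDedekindDomain Filter Topology MeasureTheory
open scoped ENNReal NNReal

namespace Pool.Agent.Results.MP_542436_nt.NearAlmostEveryPoint

open SplitCurves (height IsForm equation counting)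

section
variable {K : Type} [Field K] [NumberField K]

theorem height_nonneg (x : K) : 0 ≤ height x := by
  unfold height
  refine add_nonneg ?_ ?_
  · refine Finset.sum_nonneg fun w _ => mul_nonneg (Nat.cast_nonneg _) (Real.log_nonneg ?_)
    rw [map_one]
    exact le_max_right _ _
  · refine finsum_nonneg fun v => Real.log_nonneg ?_
    rw [map_one]
    exact le_max_right _ _

/-- the height of a pair -/
noncomputable def H (t : K × K) : ℝ := Real.exp (max (height t.1) (height t.2))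

theorem one_le_H (t : K × K) : 1 ≤ H t := Real.one_le_exp (le_max_of_le_left (height_nonneg _))

/-- The divisor given by `γ`, `A`, `deg`, `τ` (the fibres `s = γ i`, `i ∈ A`, of the first projection and the curves
`t = τ k s`, which are fibres of the second projection or smooth curves of bidegree `(1, 1)`) has normal crossings and its
crossing points are rational. -/
def NormalCrossings {g t : ℕ} (γ : Fin g → K × K) (A : Finset (Fin g)) (deg : Fin t → ℕ)
    (τ : Fin t → K × K → K × K) : Prop :=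
  (∀ i, γ i ≠ 0) ∧ (∀ i j, i ≠ j → (γ i).1 * (γ j).2 - (γ i).2 * (γ j).1 ≠ 0) ∧ (∀ k, IsForm (deg k) (τ k)) ∧
    ∃ (S : Fin t → Fin t → Finset (Fin g)) (u : Fin t → Fin t → K),
      (∀ k l, k ≠ l → u k l ≠ 0 ∧ (S k l).card = deg k + deg l ∧
        ∀ s : K × K, (τ k s).1 * (τ l s).2 - (τ k s).2 * (τ l s).1 =
          u k l * ∏ i ∈ S k l, (s.1 * (γ i).2 - s.2 * (γ i).1)) ∧
      (∀ k l, k ≠ l → Disjoint A (S k l)) ∧
      (∀ k l m, k ≠ l → k ≠ m → l ≠ m → Disjoint (S k m) (S l m))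

/-- the points off the divisor which violate the inequality -/
def Bad (T : Set (HeightOneSpectrum (𝓞 K))) {g t : ℕ} (γ : Fin g → K × K) (A : Finset (Fin g)) (deg : Fin t → ℕ)
    (τ : Fin t → K × K → K × K) (κ c : ℝ) : Set (K × K) :=
  {z | equation γ A τ z.1 z.2 ≠ 0 ∧
    counting T γ A deg τ z.1 z.2 < (((A.card + ∑ k, deg k : ℕ) : ℝ) - κ) * height z.1 +
      ((t : ℝ) - κ) * height z.2 + c}

theorem bad_mono {T : Set (HeightOneSpectrum (𝓞 K))} {g t : ℕ} {γ : Fin g → K × K} {A : Finset (Fin g)}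
    {deg : Fin t → ℕ} {τ : Fin t → K × K → K × K} {κ κ' c c' : ℝ} (hκ : κ' ≤ κ) (hc : c ≤ c') :
    Bad T γ A deg τ κ c ⊆ Bad T γ A deg τ κ' c' := by
  rintro z ⟨h1, h2⟩
  refine ⟨h1, h2.trans_le ?_⟩
  have h3 := mul_le_mul_of_nonneg_right hκ (height_nonneg z.1)
  have h4 := mul_le_mul_of_nonneg_right hκ (height_nonneg z.2)
  linarith

theorem count (T : Set (HeightOneSpectrum (𝓞 K))) (hT : T.Finite) {g t : ℕ} (hg : 1 ≤ g) (ht : 1 ≤ t)
    (γ : Fin g → K × K) (A : Finset (Fin g)) (deg : Fin t → ℕ) (τ : Fin t → K × K → K × K)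
    (h : NormalCrossings γ A deg τ) {κ : ℝ} (h0 : 0 ≤ κ) (h2 : κ ≤ 2) (c : ℝ) {ε : ℝ} (hε : 0 < ε) :
    ∃ C : ℝ, ∀ X : ℝ, 1 ≤ X → {z : K × K | z ∈ Bad T γ A deg τ κ c ∧ H z ≤ X}.Finite ∧
      ({z : K × K | z ∈ Bad T γ A deg τ κ c ∧ H z ≤ X}.ncard : ℝ) ≤ C * X ^ (max (2 * (2 - κ)) (10 / 3) + ε) := by
  obtain ⟨hγ0, hγ, hτ, S, u, hS, hAS, hSS⟩ := h
  obtain ⟨C, hC⟩ := SplitCurves.result K T hT g t hg ht γ hγ0 hγ A deg τ hτ S u hS hAS hSS κ c ε h0 h2 hε
  refine ⟨C, fun X hX => ?_⟩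
  have hX0 : 0 < X := by linarith
  have e : {z : K × K | z ∈ Bad T γ A deg τ κ c ∧ H z ≤ X} = {z : K × K | equation γ A τ z.1 z.2 ≠ 0 ∧
      height z.1 ≤ Real.log X ∧ height z.2 ≤ Real.log X ∧
      counting T γ A deg τ z.1 z.2 < (((A.card + ∑ k, deg k : ℕ) : ℝ) - κ) * height z.1 +
        ((t : ℝ) - κ) * height z.2 + c} := by
    ext z
    have e1 : H z ≤ X ↔ height z.1 ≤ Real.log X ∧ height z.2 ≤ Real.log X := by
      unfold H
      rw [← Real.le_log_iff_exp_le hX0, max_le_iff]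
    constructor
    · rintro ⟨⟨g1, g2⟩, g3⟩
      exact ⟨g1, (e1.1 g3).1, (e1.1 g3).2, g2⟩
    · rintro ⟨g1, g2, g3, g4⟩
      exact ⟨⟨g1, g4⟩, e1.2 ⟨g2, g3⟩⟩
  rw [e]
  exact hC X hX

/-- part (1) -/
theorem part_one (T : Set (HeightOneSpectrum (𝓞 K))) (hT : T.Finite) {g t : ℕ} (hg : 1 ≤ g) (ht : 1 ≤ t)
    (γ : Fin g → K × K) (A : Finset (Fin g)) (deg : Fin t → ℕ) (τ : Fin t → K × K → K × K)
    (h : NormalCrossings γ A deg τ) {κ : ℝ} (h0 : 0 ≤ κ) (h2 : κ ≤ 2) {M : Type} [MetricSpace M] (φ : K × K → M)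
    {σ : ℝ} (hσ : 0 < σ) :
    ∃ E : Set M, dimH E ≤ ENNReal.ofReal (max (2 * (2 - κ)) (10 / 3) / σ) ∧ ∀ z ∉ E, ∀ c : ℝ,
      {x : K × K | x ∈ Bad T γ A deg τ κ c ∧ dist (φ x) z ≤ H x ^ (-σ)}.Finite := by
  obtain ⟨E, h3, h4⟩ := Pool.Agent.H107.ME.dim_family φ (fun x : K × K => H x) (fun x => one_le_H x)
    (s := max (2 * (2 - κ)) (10 / 3)) (le_max_of_le_right (by norm_num)) hσ
    (fun m : ℕ => Bad T γ A deg τ κ (m : ℝ)) (fun m ε hε => count T hT hg ht γ A deg τ h h0 h2 (m : ℝ) hε)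
  refine ⟨E, h3, fun z hz c => ?_⟩
  obtain ⟨m, hm⟩ := exists_nat_ge c
  exact (h4 z hz m).subset fun x hx => ⟨bad_mono le_rfl hm hx.1, hx.2⟩

end

/-- a curve given by finitely many numbers -/
def build {K : Type} [Field K] (e : ℕ) (p r : K × K) : K × K → K × K :=
  if e = 0 then fun _ => p else fun s => (p.1 * s.1 + p.2 * s.2, r.1 * s.1 + r.2 * s.2)

theorem exists_build {K : Type} [Field K] {e : ℕ} {τ : K × K → K × K} (h : IsForm e τ) :
    ∃ p r : K × K, τ = build e p r := by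
  rcases h with ⟨he, b, -, hb⟩ | ⟨he, p, r, -, hpr⟩
  · refine ⟨b, b, ?_⟩
    unfold build
    rw [if_pos he]
    exact funext hb
  · refine ⟨p, r, ?_⟩
    unfold build
    rw [if_neg (by omega)]
    exact funext hpr

/-- there are countably many primes -/
theorem countable_primes (K : Type) [Field K] [NumberField K] : Countable (HeightOneSpectrum (𝓞 K)) := by
  have hK : Countable K := (Module.finBasis ℚ K).equivFun.injective.countable
  have h1 : Countable (𝓞 K) := (RingOfIntegers.coe_injective (K := K)).countable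
  have h2 : Countable (Ideal (𝓞 K)) := by
    refine Function.Surjective.countable (f := fun s : Finset (𝓞 K) => Ideal.span (s : Set (𝓞 K))) ?_
    intro I
    obtain ⟨s, hs⟩ := (isNoetherianRing_iff_ideal_fg (𝓞 K)).1 inferInstance I
    exact ⟨s, hs⟩
  have h3 : Function.Injective (fun v : HeightOneSpectrum (𝓞 K) => v.asIdeal) := fun v w h => HeightOneSpectrum.ext h
  exact h3.countable

/-- there are countably many number fields in a field of characteristic zero -/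
theorem countable_fields (F : Type) [Field F] [CharZero F] :
    {K : IntermediateField ℚ F | FiniteDimensional ℚ K}.Countable := by
  classical
  have hA : {x : F | IsAlgebraic ℚ x}.Countable := Algebraic.countable ℚ F
  have hF : {s : Set F | s.Finite ∧ s ⊆ {x : F | IsAlgebraic ℚ x}}.Countable := Set.countable_ofPred_finite_subset hA
  refine (hF.image fun s => IntermediateField.adjoin ℚ s).mono ?_
  intro K hK
  have hK' : FiniteDimensional ℚ K := hK
  obtain ⟨s, hs⟩ : ∃ s : Finset F, IntermediateField.adjoin ℚ (s : Set F) = K := by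
    obtain ⟨s, hs⟩ := IntermediateField.essFiniteType_iff.1 (inferInstance : Algebra.EssFiniteType ℚ K)
    exact ⟨s, hs⟩
  refine ⟨s, ⟨s.finite_toSet, fun x hx => ?_⟩, hs⟩
  have hxK : x ∈ K := by
    rw [← hs]
    exact IntermediateField.subset_adjoin _ _ hx
  have h1 : IsAlgebraic ℚ (⟨x, hxK⟩ : K) := Algebra.IsAlgebraic.isAlgebraic _
  exact h1.algebraMap (A := F)

/-- almost every point of a space with Haar measure, one number field and one map, all divisors -/
theorem one_field (K : Type) [Field K] [NumberField K] {V : Type} [NormedAddCommGroup V]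
    [NormedSpace ℝ V] [FiniteDimensional ℝ V] [MeasurableSpace V] [BorelSpace V] (μ : Measure V)
    [μ.IsAddHaarMeasure] (hV : 0 < Module.finrank ℝ V) (φ : K × K → V) :
    ∀ᵐ z ∂μ, ∀ T : Set (HeightOneSpectrum (𝓞 K)), T.Finite → ∀ g t : ℕ, 1 ≤ g → 1 ≤ t →
      ∀ (γ : Fin g → K × K) (A : Finset (Fin g)) (deg : Fin t → ℕ) (τ : Fin t → K × K → K × K),
      NormalCrossings γ A deg τ → ∀ κ : ℝ, 0 ≤ κ → κ ≤ 2 →
      ∀ σ : ℝ, max (2 * (2 - κ)) (10 / 3) / Module.finrank ℝ V < σ → ∀ c : ℝ,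
        {x : K × K | x ∈ Bad T γ A deg τ κ c ∧ dist (φ x) z ≤ H x ^ (-σ)}.Finite := by
  classical
  have hd : (0 : ℝ) < Module.finrank ℝ V := by exact_mod_cast hV
  have hcK : Countable K := (Module.finBasis ℚ K).equivFun.injective.countable
  have hcP : Countable (HeightOneSpectrum (𝓞 K)) := countable_primes K
  -- rational values of `κ`
  have h1 : ∀ᵐ z ∂μ, ∀ q : ℚ, 0 ≤ (q : ℝ) → (q : ℝ) ≤ 2 → ∀ g t : ℕ,
      ∀ σ : ℝ, max (2 * (2 - (q : ℝ))) (10 / 3) / Module.finrank ℝ V < σ →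
      ∀ j : {j : Finset (HeightOneSpectrum (𝓞 K)) × (Fin g → K × K) × Finset (Fin g) ×
        (Fin t → ℕ × (K × K) × (K × K)) // 1 ≤ g ∧ 1 ≤ t ∧ NormalCrossings j.2.1 j.2.2.1 (fun k => (j.2.2.2 k).1)
          (fun k => build (j.2.2.2 k).1 (j.2.2.2 k).2.1 (j.2.2.2 k).2.2)} × ℕ,
        {x | x ∈ Bad (j.1.1.1 : Set (HeightOneSpectrum (𝓞 K))) j.1.1.2.1 j.1.1.2.2.1 (fun k => (j.1.1.2.2.2 k).1)
          (fun k => build (j.1.1.2.2.2 k).1 (j.1.1.2.2.2 k).2.1 (j.1.1.2.2.2 k).2.2) q (j.2 : ℝ) ∧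
          dist (φ x) z ≤ H x ^ (-σ)}.Finite := by
    rw [ae_all_iff]
    intro q
    by_cases hq0 : 0 ≤ (q : ℝ)
    · by_cases hq2 : (q : ℝ) ≤ 2
      · have h2 : ∀ᵐ z ∂μ, ∀ g t : ℕ,
            ∀ σ : ℝ, max (2 * (2 - (q : ℝ))) (10 / 3) / Module.finrank ℝ V < σ →
            ∀ j : {j : Finset (HeightOneSpectrum (𝓞 K)) × (Fin g → K × K) × Finset (Fin g) ×
              (Fin t → ℕ × (K × K) × (K × K)) // 1 ≤ g ∧ 1 ≤ t ∧ NormalCrossings j.2.1 j.2.2.1
                (fun k => (j.2.2.2 k).1)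
                (fun k => build (j.2.2.2 k).1 (j.2.2.2 k).2.1 (j.2.2.2 k).2.2)} × ℕ,
              {x | x ∈ Bad (j.1.1.1 : Set (HeightOneSpectrum (𝓞 K))) j.1.1.2.1 j.1.1.2.2.1
                (fun k => (j.1.1.2.2.2 k).1)
                (fun k => build (j.1.1.2.2.2 k).1 (j.1.1.2.2.2 k).2.1 (j.1.1.2.2.2 k).2.2) q (j.2 : ℝ) ∧
                dist (φ x) z ≤ H x ^ (-σ)}.Finite := by
          rw [ae_all_iff]
          intro g
          rw [ae_all_iff]
          intro t
          exact Pool.Agent.H2N.ae_family_space μ hV φ (fun x : K × K => H x) (fun x => one_le_H x)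
            (le_max_of_le_right (by norm_num)) _ (fun j ε hε => count _ (Finset.finite_toSet _) j.1.2.1 j.1.2.2.1
              _ _ _ _ j.1.2.2.2 hq0 hq2 (j.2 : ℝ) hε)
        filter_upwards [h2] with z hz _ _
        exact hz
      · exact Eventually.of_forall fun z _ h => absurd h hq2
    · exact Eventually.of_forall fun z h => absurd h hq0
  filter_upwards [h1] with z hz T hT g t hg ht γ A deg τ hN κ h0 h2 σ hσ c
  -- a rational number slightly smaller than `κ`
  obtain ⟨q, hq0, hqκ, hqσ⟩ : ∃ q : ℚ, 0 ≤ (q : ℝ) ∧ (q : ℝ) ≤ κ ∧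
      max (2 * (2 - (q : ℝ))) (10 / 3) / Module.finrank ℝ V < σ := by
    rcases eq_or_lt_of_le h0 with h | h
    · refine ⟨0, by simp, by simpa using h0, ?_⟩
      rw [← h] at hσ
      simpa using hσ
    · have hcont : Tendsto (fun s : ℝ => max (2 * (2 - s)) (10 / 3) / (Module.finrank ℝ V : ℝ)) (𝓝 κ)
          (𝓝 (max (2 * (2 - κ)) (10 / 3) / (Module.finrank ℝ V : ℝ))) := by
        refine Tendsto.div_const ?_ _
        exact ((tendsto_const_nhds.sub tendsto_id).const_mul 2).max tendsto_const_nhds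
      obtain ⟨δ, hδ, h4⟩ := Metric.eventually_nhds_iff.1 (hcont.eventually_lt_const hσ)
      obtain ⟨q, hq1, hq2⟩ := exists_rat_btwn (show max 0 (κ - δ) < κ from max_lt h (by linarith))
      have hq3 : 0 < (q : ℝ) := lt_of_le_of_lt (le_max_left _ _) hq1
      have hq4 : κ - δ < (q : ℝ) := lt_of_le_of_lt (le_max_right _ _) hq1
      exact ⟨q, hq3.le, hq2.le, h4 (y := (q : ℝ)) (by rw [Real.dist_eq, abs_lt]; constructor <;> linarith)⟩
  have hb := fun k => exists_build (hN.2.2.1 k)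
  choose p r hpr using hb
  have hτ : τ = fun k => build (deg k) (p k) (r k) := funext hpr
  obtain ⟨m, hm⟩ := exists_nat_ge c
  have hN' : NormalCrossings γ A deg (fun k => build (deg k) (p k) (r k)) := by
    rw [← hτ]
    exact hN
  have h5 := hz q hq0 (hqκ.trans h2) g t σ hqσ
    ⟨⟨(hT.toFinset, γ, A, fun k => (deg k, p k, r k)), hg, ht, hN'⟩, m⟩
  refine h5.subset ?_
  rintro x ⟨g1, g2⟩
  refine ⟨?_, g2⟩
  have g3 := bad_mono hqκ hm g1
  rw [hτ] at g3
  simpa only [Set.Finite.coe_toFinset] using g3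

/-- all number fields in `E = ℝ` or `E = ℂ` at once -/
theorem all_fields (E : Type) [NormedField E] [CharZero E]
    [NormedSpace ℝ (E × E)] [FiniteDimensional ℝ (E × E)]
    [MeasurableSpace (E × E)] [BorelSpace (E × E)] (μ : Measure (E × E)) [μ.IsAddHaarMeasure]
    (hV : 0 < Module.finrank ℝ (E × E)) :
    ∀ᵐ z ∂μ, ∀ (K : IntermediateField ℚ E) [NumberField K],
      ∀ T : Set (HeightOneSpectrum (𝓞 K)), T.Finite → ∀ g t : ℕ, 1 ≤ g → 1 ≤ t →
      ∀ (γ : Fin g → K × K) (A : Finset (Fin g)) (deg : Fin t → ℕ) (τ : Fin t → K × K → K × K),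
      NormalCrossings γ A deg τ → ∀ κ : ℝ, 0 ≤ κ → κ ≤ 2 →
      ∀ σ : ℝ, max (2 * (2 - κ)) (10 / 3) / Module.finrank ℝ (E × E) < σ → ∀ c : ℝ,
        {x : K × K | x ∈ Bad T γ A deg τ κ c ∧ dist ((x.1 : E), (x.2 : E)) z ≤ H x ^ (-σ)}.Finite := by
  have h5 : ∀ᵐ z ∂μ, ∀ K ∈ {K : IntermediateField ℚ E | FiniteDimensional ℚ K}, ∀ [NumberField K],
      ∀ T : Set (HeightOneSpectrum (𝓞 K)), T.Finite → ∀ g t : ℕ, 1 ≤ g → 1 ≤ t →
      ∀ (γ : Fin g → K × K) (A : Finset (Fin g)) (deg : Fin t → ℕ) (τ : Fin t → K × K → K × K),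
      NormalCrossings γ A deg τ → ∀ κ : ℝ, 0 ≤ κ → κ ≤ 2 →
      ∀ σ : ℝ, max (2 * (2 - κ)) (10 / 3) / Module.finrank ℝ (E × E) < σ → ∀ c : ℝ,
        {x : K × K | x ∈ Bad T γ A deg τ κ c ∧ dist ((x.1 : E), (x.2 : E)) z ≤ H x ^ (-σ)}.Finite := by
    rw [ae_ball_iff (countable_fields E)]
    intro K hK
    have hK' : FiniteDimensional ℚ K := hK
    have hNF : NumberField K := ⟨⟩
    filter_upwards [one_field K μ hV (fun x : K × K => ((x.1 : E), (x.2 : E)))] with z hz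
    intro _
    exact hz
  filter_upwards [h5] with z hz K hK
  exact hz K (inferInstance : FiniteDimensional ℚ K)

/-- **Theorem.** Let `Bad T γ A deg τ κ c` be the set of the `(x, y) ∈ K²` off the divisor `D` of `γ`, `A`, `deg`, `τ` with
`N^(1)(D, (x, y)) < (a - κ) h(x) + (b - κ) h(y) + c`, where `(a, b)` is the bidegree of `D` and the primes in the finite set
`T` are omitted in `N^(1)`. Suppose that `D` has normal crossings and rational crossing points, `0 ≤ κ ≤ 2`.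
(1) For every map `φ` of `K²` to a metric space `M` and `σ > 0` there is a set `E ⊆ M` of Hausdorff dimension at most
`max(2 (2 - κ), 10 / 3) / σ` such that for all `z` outside `E` and all `c` only finitely many `x ∈ K²` in `Bad` satisfy
`dist (φ x) z ≤ H(x) ^ (-σ)`, where `H(x) = exp (max (h(x₁), h(x₂)))`.
(2) For almost every `z ∈ ℝ²`, all number fields `K ⊂ ℝ`, all such divisors, all `T`, `κ ∈ [0, 2]`, `σ > max(2 - κ, 5 / 3)`
and `c`, only finitely many `x ∈ K²` in `Bad` satisfy `|x₁ - z₁|, |x₂ - z₂| ≤ H(x) ^ (-σ)`.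
(3) The same holds for almost every `z ∈ ℂ²` and all number fields `K ⊂ ℂ`, for `σ > max((2 - κ) / 2, 5 / 6)`. -/
theorem result :
    (∀ (K : Type) [Field K] [NumberField K] (T : Set (HeightOneSpectrum (𝓞 K))), T.Finite →
      ∀ (g t : ℕ), 1 ≤ g → 1 ≤ t →
      ∀ (γ : Fin g → K × K) (A : Finset (Fin g)) (deg : Fin t → ℕ) (τ : Fin t → K × K → K × K),
      NormalCrossings γ A deg τ → ∀ κ : ℝ, 0 ≤ κ → κ ≤ 2 → ∀ (M : Type) [MetricSpace M] (φ : K × K → M) (σ : ℝ),
      0 < σ → ∃ E : Set M, dimH E ≤ ENNReal.ofReal (max (2 * (2 - κ)) (10 / 3) / σ) ∧ ∀ z : M, z ∉ E → ∀ c : ℝ,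
        {x : K × K | x ∈ Bad T γ A deg τ κ c ∧ dist (φ x) z ≤ H x ^ (-σ)}.Finite) ∧
    (∀ᵐ z : ℝ × ℝ, ∀ (K : IntermediateField ℚ ℝ) [NumberField K] (T : Set (HeightOneSpectrum (𝓞 K))), T.Finite →
      ∀ (g t : ℕ), 1 ≤ g → 1 ≤ t →
      ∀ (γ : Fin g → K × K) (A : Finset (Fin g)) (deg : Fin t → ℕ) (τ : Fin t → K × K → K × K),
      NormalCrossings γ A deg τ → ∀ κ : ℝ, 0 ≤ κ → κ ≤ 2 → ∀ σ : ℝ, max (2 - κ) (5 / 3) < σ → ∀ c : ℝ,
        {x : K × K | x ∈ Bad T γ A deg τ κ c ∧ |(x.1 : ℝ) - z.1| ≤ H x ^ (-σ) ∧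
          |(x.2 : ℝ) - z.2| ≤ H x ^ (-σ)}.Finite) ∧
    (∀ᵐ z : ℂ × ℂ, ∀ (K : IntermediateField ℚ ℂ) [NumberField K] (T : Set (HeightOneSpectrum (𝓞 K))), T.Finite →
      ∀ (g t : ℕ), 1 ≤ g → 1 ≤ t →
      ∀ (γ : Fin g → K × K) (A : Finset (Fin g)) (deg : Fin t → ℕ) (τ : Fin t → K × K → K × K),
      NormalCrossings γ A deg τ → ∀ κ : ℝ, 0 ≤ κ → κ ≤ 2 → ∀ σ : ℝ, max ((2 - κ) / 2) (5 / 6) < σ → ∀ c : ℝ,
        {x : K × K | x ∈ Bad T γ A deg τ κ c ∧ ‖(x.1 : ℂ) - z.1‖ ≤ H x ^ (-σ) ∧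
          ‖(x.2 : ℂ) - z.2‖ ≤ H x ^ (-σ)}.Finite) := by
  refine ⟨fun K _ _ T hT g t hg ht γ A deg τ h κ h0 h2 M _ φ σ hσ =>
    part_one T hT hg ht γ A deg τ h h0 h2 φ hσ, ?_, ?_⟩
  · have hV : Module.finrank ℝ (ℝ × ℝ) = 2 := by
      rw [Module.finrank_prod, Module.finrank_self]
    filter_upwards [all_fields ℝ (volume : Measure (ℝ × ℝ)) (by rw [hV]; norm_num)] with z hz K hK T hT g t hg ht γ A
      deg τ hN κ h0 h2 σ hσ c
    have h3 := hz K T hT g t hg ht γ A deg τ hN κ h0 h2 σ (by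
      rw [hV, div_lt_iff₀ (by norm_num)]
      push_cast
      rw [max_lt_iff] at hσ ⊢
      constructor <;> linarith) c
    refine h3.subset ?_
    rintro x ⟨g1, g2, g3⟩
    refine ⟨g1, ?_⟩
    rw [Prod.dist_eq, Real.dist_eq, Real.dist_eq]
    exact max_le g2 g3
  · have hV : Module.finrank ℝ (ℂ × ℂ) = 4 := by
      rw [Module.finrank_prod, Complex.finrank_real_complex]
    have hH : (volume : Measure (ℂ × ℂ)).IsAddHaarMeasure := by
      rw [Measure.volume_eq_prod]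
      have : (volume : Measure ℂ).IsAddHaarMeasure := inferInstance
      infer_instance
    filter_upwards [all_fields ℂ (volume : Measure (ℂ × ℂ)) (by rw [hV]; norm_num)] with z hz K hK T hT g t hg ht γ A
      deg τ hN κ h0 h2 σ hσ c
    have h3 := hz K T hT g t hg ht γ A deg τ hN κ h0 h2 σ (by
      rw [hV, div_lt_iff₀ (by norm_num)]
      push_cast
      rw [max_lt_iff] at hσ ⊢
      constructor <;> linarith) c
    refine h3.subset ?_
    rintro x ⟨g1, g2, g3⟩
    refine ⟨g1, ?_⟩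
    rw [Prod.dist_eq, dist_eq_norm, dist_eq_norm]
    exact max_le g2 g3

end Pool.Agent.Results.MP_542436_nt.NearAlmostEveryPoint
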